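import Pool.Agent.Helper97.SZ.Goals

/-!
# Project SZ (MP_126465_gt), packet NRM: normalization of the embedding
-/

set_option autoImplicit false

open Set Filter Topology Metric
open scoped ContDiff

namespace Pool.Agent.Helper16.SZ

open Pool.Agent.Helper91.SY Pool.Agent.Helper97.SZ

theorem symp_const {E : Type} [NormedAddCommGroup E] [NormedSpace ℝ E]
    {B : E → E →L[ℝ] E →L[ℝ] ℝ} {B0 : E →L[ℝ] E →L[ℝ] ℝ} (hB : Symp B) (x : E) (hx : B x = B0) :
    Symp (fun _ : E => B0) := by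
  subst hx
  refine ⟨contDiff_const, fun _ u => hB.alt x u, fun y u v w => ?_, fun _ u h => hB.nondeg x u h⟩
  have h1 : fderiv ℝ (fun _ : E => B x) y = 0 := by
    rw [fderiv_fun_const]
    rfl
  rw [h1]
  simp

theorem nrm (hMV : StmtMOVE) (hIS : StmtIS) : StmtNRM := by
  intro n hn B B0 R ψ U e₂ hR hB hF hU hKU hψ hinj hpull he
  have hnR : ‖R • e₂‖ = R := by rw [norm_smul, he, mul_one, Real.norm_eq_abs, abs_of_pos hR]
  have hB0 : B (R • e₂) = B0 := hF _ hnR.ge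
  have hS0 : Symp (fun _ : V n => B0) := symp_const hB _ hB0
  -- the move
  have hmv := hMV n hn B (fun _ => B0) B0 R (fun t => (3 / 4 * t * R) • e₂) (fun t => 1 - 3 / 4 * t)
    (closedBall 0 R) hR hB hF hS0
    (by fun_prop) (by fun_prop)
    (fun t ht => by
      have h1 := ht.2
      linarith)
    (isCompact_closedBall 0 R)
    (fun t ht x hx => by
      rw [mem_closedBall_zero_iff]
      have h1 : ‖x‖ ≤ ‖x - (3 / 4 * t * R) • e₂‖ + ‖(3 / 4 * t * R) • e₂‖ := by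
        have h2 := norm_add_le (x - (3 / 4 * t * R) • e₂) ((3 / 4 * t * R) • e₂)
        rwa [sub_add_cancel] at h2
      have h2 : ‖(3 / 4 * t * R) • e₂‖ = 3 / 4 * t * R := by
        rw [norm_smul, he, mul_one, Real.norm_eq_abs, abs_of_nonneg]
        have := ht.1
        positivity
      have h3 : ‖x - (3 / 4 * t * R) • e₂‖ ≤ (1 - 3 / 4 * t) * R := hx
      rw [h2] at h1
      nlinarith)
    (fun x _ => rfl)
  obtain ⟨g, hg, hgK, hgP⟩ := ((hIS (V n)).2.1 _ _ _ hmv)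
  have hins0 : ∀ x, ins B0 B (fun _ => B0) ((3 / 4 * (0 : ℝ) * R) • e₂) (1 - 3 / 4 * 0) x = B x := by
    intro x
    unfold ins
    rw [show (3 / 4 * (0 : ℝ) * R) = 0 by ring, show (1 - 3 / 4 * (0 : ℝ)) = 1 by ring, zero_smul,
      sub_zero, inv_one, one_smul]
    abel
  have hins1 : ∀ x, ins B0 B (fun _ => B0) ((3 / 4 * (1 : ℝ) * R) • e₂) (1 - 3 / 4 * 1) x =
      B ((4 : ℝ) • (x - (3 / 4 * R) • e₂)) := by
    intro x
    unfold ins
    rw [show (3 / 4 * (1 : ℝ) * R) = 3 / 4 * R by ring, show (1 - 3 / 4 * (1 : ℝ)) = 4⁻¹ by norm_num,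
      inv_inv]
    abel
  have hgP' : ∀ x u v, B (g x) (fderiv ℝ (fun x => g x) x u) (fderiv ℝ (fun x => g x) x v) =
      B ((4 : ℝ) • (x - (3 / 4 * R) • e₂)) u v := by
    intro x u v
    rw [← hins0 (g x), ← hins1 x]
    exact hgP x u v
  -- `g` maps `U` to `U`
  have hgU : ∀ x ∈ U, g x ∈ U := by
    intro x hx
    by_cases hxK : x ∈ closedBall (0 : V n) R
    · apply hKU
      by_contra hcon
      have h1 := g.injective (hgK _ hcon)
      rw [h1] at hcon
      exact hcon hxK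
    · rw [hgK x hxK]
      exact hx
  have hgd : ContDiff ℝ ∞ (fun x => g x) := hg.1
  have hgdiff : ∀ x, DifferentiableAt ℝ (fun x => g x) x := fun x =>
    (hgd.differentiable (by simp)).differentiableAt
  have hψd : ∀ y ∈ U, DifferentiableAt ℝ ψ y := fun y hy =>
    (hψ.contDiffAt (hU.mem_nhds hy)).differentiableAt (by simp)
  set ψ' : V n → V n := fun x => ψ (g x) with hψ'
  have hψ'c : ContDiffOn ℝ ∞ ψ' U := hψ.comp hgd.contDiffOn hgU
  have hψ'd : ∀ x ∈ U, HasFDerivAt ψ' ((fderiv ℝ ψ (g x)).comp (fderiv ℝ (fun x => g x) x)) x :=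
    fun x hx => ((hψd _ (hgU x hx)).hasFDerivAt).comp x (hgdiff x).hasFDerivAt
  have hB' : ∀ x ∈ U, ∀ u v, B0 (fderiv ℝ ψ' x u) (fderiv ℝ ψ' x v) =
      B ((4 : ℝ) • (x - (3 / 4 * R) • e₂)) u v := by
    intro x hx u v
    rw [(hψ'd x hx).fderiv]
    show B0 (fderiv ℝ ψ (g x) (fderiv ℝ (fun x => g x) x u))
      (fderiv ℝ ψ (g x) (fderiv ℝ (fun x => g x) x v)) = _
    rw [hpull _ (hgU x hx), hgP']
  have h0U : (0 : V n) ∈ U := hKU (by rw [mem_closedBall_zero_iff, norm_zero]; exact hR.le)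
  have hB00 : B ((4 : ℝ) • ((0 : V n) - (3 / 4 * R) • e₂)) = B0 := by
    apply hF
    rw [zero_sub, norm_smul, norm_neg, norm_smul, he, mul_one, Real.norm_eq_abs, Real.norm_eq_abs,
      abs_of_pos (by norm_num : (0 : ℝ) < 4), abs_of_pos (by positivity)]
    linarith
  set L := fderiv ℝ ψ' 0 with hL
  have hLB : ∀ u v, B0 (L u) (L v) = B0 u v := by
    intro u v
    rw [hL, hB' 0 h0U, hB00]
  have hLinj : Function.Injective (L : V n →ₗ[ℝ] V n) := by
    rw [injective_iff_map_eq_zero]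
    intro u hu
    apply hS0.nondeg 0 u
    intro v
    have h1 : L u = 0 := hu
    rw [← hLB u v, h1, map_zero]
    rfl
  let Le : V n ≃L[ℝ] V n :=
    (LinearEquiv.ofInjectiveEndo (L : V n →ₗ[ℝ] V n) hLinj).toContinuousLinearEquiv
  have hLe : ∀ u, Le u = L u := fun u => rfl
  have hLs : ∀ u v, B0 (Le.symm u) (Le.symm v) = B0 u v := by
    intro u v
    rw [← hLB (Le.symm u) (Le.symm v), ← hLe, ← hLe, Le.apply_symm_apply, Le.apply_symm_apply]
  have hd : ∀ x ∈ U, fderiv ℝ (fun x => Le.symm (ψ' x - ψ' 0)) x =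
      (Le.symm : V n →L[ℝ] V n).comp (fderiv ℝ ψ' x) := by
    intro x hx
    have h1 : HasFDerivAt ψ' (fderiv ℝ ψ' x) x := (hψ'd x hx).differentiableAt.hasFDerivAt
    exact (((Le.symm : V n →L[ℝ] V n).hasFDerivAt).comp x (h1.sub_const (ψ' 0))).fderiv
  refine ⟨fun x => Le.symm (ψ' x - ψ' 0), ?_, ?_, ?_, ?_, ?_⟩
  · exact Le.symm.contDiff.comp_contDiffOn (hψ'c.sub contDiffOn_const)
  · intro x hx y hy hxy
    have h1 : ψ' x - ψ' 0 = ψ' y - ψ' 0 := Le.symm.injective hxy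
    have h2 : ψ' x = ψ' y := sub_left_injective h1
    exact g.injective (hinj (hgU x hx) (hgU y hy) h2)
  · show Le.symm (ψ' 0 - ψ' 0) = 0
    rw [sub_self, map_zero]
  · rw [hd 0 h0U]
    refine ContinuousLinearMap.ext fun u => ?_
    show Le.symm (L u) = u
    rw [← hLe, Le.symm_apply_apply]
  · intro x hx u v
    rw [hd x hx]
    show B0 (Le.symm (fderiv ℝ ψ' x u)) (Le.symm (fderiv ℝ ψ' x v)) = _
    rw [hLs, hB' x hx]

end Pool.Agent.Helper16.SZ
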